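import Pool.Agent.helper62.NP.Norm

set_option autoImplicit false

/-!
# The norm of `P_b(x,x') + p - l x` over `R[x'] / (P_{x'}(x,x') - l x')`
-/

namespace Pool.Agent.helper62.NP

open MvPolynomial

noncomputable section

variable {n : ℕ}

/-- the substitution `b = x` -/
def sb {R : Type} [CommRing R] [Algebra ℂ R] (x : R) :
    MvPolynomial (Option (Fin n)) ℂ →ₐ[ℂ] MvPolynomial (Fin n) R :=
  aeval fun o => o.elim (C x) X

lemma sb_none {R : Type} [CommRing R] [Algebra ℂ R] (x : R) :
    sb x (X none : MvPolynomial (Option (Fin n)) ℂ) = C x := by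
  rw [sb, aeval_X]
  rfl

lemma sb_some {R : Type} [CommRing R] [Algebra ℂ R] (x : R) (i : Fin n) :
    sb x (X (some i) : MvPolynomial (Option (Fin n)) ℂ) = X i := by
  rw [sb, aeval_X]
  rfl

lemma sb_map {R R' : Type} [CommRing R] [Algebra ℂ R] [CommRing R'] [Algebra ℂ R']
    (φ : R →ₐ[ℂ] R') (x : R) (F : MvPolynomial (Option (Fin n)) ℂ) :
    map (φ : R →+* R') (sb x F) = sb (φ x) F := by
  have h : (mapAlgHom φ).comp (sb x : MvPolynomial (Option (Fin n)) ℂ →ₐ[ℂ] _) = sb (φ x) := by
    apply algHom_ext
    intro o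
    cases o with
    | none =>
      rw [AlgHom.comp_apply, sb_none, sb_none]
      simp
    | some i =>
      rw [AlgHom.comp_apply, sb_some, sb_some]
      simp
  exact DFunLike.congr_fun h F

lemma sb_monomial {R : Type} [CommRing R] [Algebra ℂ R] (x : R) (α : Option (Fin n) →₀ ℕ) (c : ℂ) :
    sb x (monomial α c) = C (x ^ α none) * map (algebraMap ℂ R) (monomial α.some c) := by
  rw [sb, aeval_monomial, Finsupp.prod_option_index, map_monomial, monomial_eq]
  · simp only [Option.elim, map_pow]
    rw [mul_left_comm]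
    rfl
  · intro o
    rw [pow_zero]
  · intro o a b
    rw [pow_add]

lemma sb_expand {R : Type} [CommRing R] [Algebra ℂ R] (x : R)
    (F : MvPolynomial (Option (Fin n)) ℂ) :
    sb x F = ∑ α ∈ F.support, C (x ^ α none) *
      map (algebraMap ℂ R) (monomial α.some (coeff α F)) := by
  conv_lhs => rw [← support_sum_monomial_coeff F, map_sum]
  exact Finset.sum_congr rfl fun α _ => sb_monomial x α _

lemma degree_option (α : Option (Fin n) →₀ ℕ) : α.degree = α none + α.some.degree := by
  rw [Finsupp.degree_eq_sum, Finsupp.degree_eq_sum, Fintype.sum_option]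
  rfl

lemma sb_sub_lt {R : Type} [CommRing R] [Algebra ℂ R] (x : R)
    {F : MvPolynomial (Option (Fin n)) ℂ} {q : ℕ} (hq : 0 < q) (hF : F.IsHomogeneous q) :
    (sb x F - map (algebraMap ℂ R) (sb 0 F)).totalDegree < q := by
  have h1 : map (algebraMap ℂ R) (sb (0 : ℂ) F) = sb (0 : R) F := by
    have := sb_map (Algebra.ofId ℂ R) (0 : ℂ) F
    rw [map_zero] at this
    exact this
  rw [h1, sb_expand, sb_expand, ← Finset.sum_sub_distrib]
  refine lt_of_le_of_lt (totalDegree_finsetSum _ _) ?_
  rw [Finset.sup_lt_iff (by exact hq)]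
  intro α hα
  have h2 : α.degree = q := by
    have := hF (mem_support_iff.mp hα)
    rwa [Finsupp.degree_eq_weight_one]
  by_cases h0 : α none = 0
  · rw [h0, pow_zero, pow_zero, sub_self, totalDegree_zero]
    exact hq
  · rw [zero_pow h0, map_zero, zero_mul, sub_zero]
    have h3 := totalDegree_mul (C (x ^ α none) : MvPolynomial (Fin n) R)
      (map (algebraMap ℂ R) (monomial α.some (coeff α F)))
    rw [totalDegree_C] at h3
    have h4 := totalDegree_map_le (algebraMap ℂ R) (monomial α.some (coeff α F))
    have h5 : (monomial α.some (coeff α F)).totalDegree ≤ α.some.degree := by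
      have := totalDegree_monomial_le α.some (coeff α F)
      refine this.trans (le_of_eq ?_)
      rw [Finsupp.degree_eq_sum, Finsupp.sum_fintype]
      · rfl
      · intro i
        rfl
    have h6 := degree_option α
    omega

lemma sb_hom {F : MvPolynomial (Option (Fin n)) ℂ} {q : ℕ} (hF : F.IsHomogeneous q) :
    (sb (0 : ℂ) F).IsHomogeneous q := by
  rw [sb_expand]
  apply IsHomogeneous.sum
  intro α hα
  have h2 : α.degree = q := by
    have := hF (mem_support_iff.mp hα)
    rwa [Finsupp.degree_eq_weight_one]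
  have h6 := degree_option α
  by_cases h0 : α none = 0
  · rw [h0, pow_zero, map_one, one_mul, map_monomial]
    apply isHomogeneous_monomial
    omega
  · rw [zero_pow h0, map_zero, zero_mul]
    exact isHomogeneous_zero _ _ _

end

end Pool.Agent.helper62.NP
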