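import Pool.Agent.helper62.BZ.Main

set_option autoImplicit false

/-!
# Norms over perturbed complete intersections: functoriality

`Md R G = R[x]/(G)` for `G i` with top forms `g i` (see `BZ.exists_basis`), `Nm R G E` the norm of
`E` over `R`. The norm commutes with base change.
-/

namespace Pool.Agent.helper62.NP

open MvPolynomial

noncomputable section

variable {n : ℕ}

/-- the algebra `R[x]/(G)` -/
abbrev Md (R : Type) [CommRing R] (G : Fin n → MvPolynomial (Fin n) R) : Type :=
  MvPolynomial (Fin n) R ⧸ Ideal.span (Set.range G)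

/-- the norm of `E` -/
def Nm (R : Type) [CommRing R] (G : Fin n → MvPolynomial (Fin n) R)
    (E : MvPolynomial (Fin n) R) : R :=
  Algebra.norm R (Ideal.Quotient.mk (Ideal.span (Set.range G)) E)

/-- the hypotheses on the top forms -/
structure CI (g : Fin n → MvPolynomial (Fin n) ℂ) (d : Fin n → ℕ) : Prop where
  pos : ∀ i, 0 < d i
  hom : ∀ i, (g i).IsHomogeneous (d i)
  zero : ∀ x : Fin n → ℂ, (∀ i, eval x (g i) = 0) → x = 0

/-- `G` has top forms `g` -/
def Top {R : Type} [CommRing R] [Algebra ℂ R] (g : Fin n → MvPolynomial (Fin n) ℂ) (d : Fin n → ℕ)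
    (G : Fin n → MvPolynomial (Fin n) R) : Prop :=
  ∀ i, (G i - map (algebraMap ℂ R) (g i)).totalDegree < d i

lemma totalDegree_map_le {R R' : Type} [CommRing R] [CommRing R'] (φ : R →+* R')
    (f : MvPolynomial (Fin n) R) : (map φ f).totalDegree ≤ f.totalDegree :=
  Finset.sup_mono (support_map_subset _ _)

lemma Top.map {R R' : Type} [CommRing R] [Algebra ℂ R] [CommRing R'] [Algebra ℂ R']
    {g : Fin n → MvPolynomial (Fin n) ℂ} {d : Fin n → ℕ}
    {G : Fin n → MvPolynomial (Fin n) R} (h : Top g d G) (φ : R →ₐ[ℂ] R') :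
    Top g d (fun i => MvPolynomial.map (φ : R →+* R') (G i)) := by
  intro i
  have h1 : MvPolynomial.map (φ : R →+* R') (G i) - MvPolynomial.map (algebraMap ℂ R') (g i) =
      MvPolynomial.map (φ : R →+* R') (G i - MvPolynomial.map (algebraMap ℂ R) (g i)) := by
    rw [map_sub, map_map, φ.comp_algebraMap]
  show (MvPolynomial.map (φ : R →+* R') (G i) - _).totalDegree < d i
  rw [h1]
  exact lt_of_le_of_lt (totalDegree_map_le _ _) (h i)

/-- the base change homomorphism -/
def bc {R R' : Type} [CommRing R] [CommRing R'] (φ : R →+* R')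
    (G : Fin n → MvPolynomial (Fin n) R) (G' : Fin n → MvPolynomial (Fin n) R')
    (hG : ∀ i, map φ (G i) = G' i) : Md R G →+* Md R' G' :=
  Ideal.quotientMap _ (map φ) (by
    rw [Ideal.span_le]
    rintro _ ⟨i, rfl⟩
    show map φ (G i) ∈ Ideal.span (Set.range G')
    rw [hG i]
    exact Ideal.subset_span ⟨i, rfl⟩)

lemma bc_mk {R R' : Type} [CommRing R] [CommRing R'] (φ : R →+* R')
    (G : Fin n → MvPolynomial (Fin n) R) (G' : Fin n → MvPolynomial (Fin n) R')
    (hG : ∀ i, map φ (G i) = G' i) (f : MvPolynomial (Fin n) R) :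
    bc φ G G' hG (Ideal.Quotient.mk _ f) = Ideal.Quotient.mk _ (map φ f) := rfl

lemma bc_smul {R R' : Type} [CommRing R] [CommRing R'] (φ : R →+* R')
    (G : Fin n → MvPolynomial (Fin n) R) (G' : Fin n → MvPolynomial (Fin n) R')
    (hG : ∀ i, map φ (G i) = G' i) (r : R) (x : Md R G) :
    bc φ G G' hG (r • x) = φ r • bc φ G G' hG x := by
  obtain ⟨f, rfl⟩ := Ideal.Quotient.mk_surjective x
  have h1 : r • (Ideal.Quotient.mk (Ideal.span (Set.range G)) f) =
      Ideal.Quotient.mk (Ideal.span (Set.range G)) (C r * f) := by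
    rw [← smul_eq_C_mul]
    rfl
  have h2 : φ r • (Ideal.Quotient.mk (Ideal.span (Set.range G')) (map φ f)) =
      Ideal.Quotient.mk (Ideal.span (Set.range G')) (C (φ r) * map φ f) := by
    rw [← smul_eq_C_mul]
    rfl
  rw [h1, bc_mk, bc_mk, h2, map_mul, map_C]

/-- **the norm commutes with base change** -/
theorem Nm_map {g : Fin n → MvPolynomial (Fin n) ℂ} {d : Fin n → ℕ} (h : CI g d)
    {R R' : Type} [CommRing R] [Algebra ℂ R] [CommRing R'] [Algebra ℂ R']
    {G : Fin n → MvPolynomial (Fin n) R} (hG : Top g d G) (φ : R →ₐ[ℂ] R')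
    (E : MvPolynomial (Fin n) R) :
    Nm R' (fun i => map (φ : R →+* R') (G i)) (map (φ : R →+* R') E) = φ (Nm R G E) := by
  classical
  obtain ⟨ι, _, e, de, he, hcard, hb⟩ := BZ.exists_basis g d h.pos h.hom h.zero
  obtain ⟨b, hb1⟩ := hb R G hG
  obtain ⟨b', hb2⟩ := hb R' (fun i => map (φ : R →+* R') (G i)) (hG.map φ)
  rw [Nm, Nm, Algebra.norm_eq_matrix_det b', Algebra.norm_eq_matrix_det b]
  rw [AlgHom.map_det]
  congr 1
  ext i j
  rw [AlgHom.mapMatrix_apply, Matrix.map_apply]
  -- expand in the basis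
  have hbc : ∀ j, bc (φ : R →+* R') G (fun i => map (φ : R →+* R') (G i)) (fun _ => rfl) (b j) =
      b' j := by
    intro j
    rw [hb1, hb2, bc_mk, map_map, φ.comp_algebraMap]
  have h1 : (Ideal.Quotient.mk (Ideal.span (Set.range G)) E) * b j =
      ∑ i, Algebra.leftMulMatrix b (Ideal.Quotient.mk _ E) i j • b i := by
    rw [← b.sum_repr ((Ideal.Quotient.mk (Ideal.span (Set.range G)) E) * b j)]
    apply Finset.sum_congr rfl
    intro i _
    rw [Algebra.leftMulMatrix_eq_repr_mul]
  have h2 := congrArg (bc (φ : R →+* R') G (fun i => map (φ : R →+* R') (G i)) (fun _ => rfl)) h1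
  rw [map_mul, map_sum, bc_mk, hbc] at h2
  simp only [bc_smul, hbc] at h2
  have h3 := congrFun (congrArg (fun x => (b'.repr x : ι → R')) h2) i
  have h4 := congrFun (b'.repr_sum_self fun i => φ (Algebra.leftMulMatrix b
    (Ideal.Quotient.mk _ E) i j)) i
  rw [Algebra.leftMulMatrix_eq_repr_mul]
  exact h3.trans h4

end

end Pool.Agent.helper62.NP
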