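import Pool.Agent.helper62.NP.Sb

set_option autoImplicit false

/-!
# The norm polynomial `NP P`

`P` a form of degree `q + 1` in `b, x'`, nonsingular on `b = 0`. `NP P ∈ ℂ[X, L, Π]` is the norm of
`P_b(X, x') + Π - L X` over `ℂ[X, L, Π][x'] / (P_{x'}(X, x') - L x')`; it is weighted homogeneous of
degree `q ^ (n + 1)` (weights `1, q - 1, q`), with coefficient `1` at `Π ^ (q ^ n)`, and it computes
the norm over every commutative `ℂ`-algebra.
-/

namespace Pool.Agent.helper62.NP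

open MvPolynomial

noncomputable section

variable {n : ℕ}

/-- the equations `P_{x'}(x, x') = l x'` -/
def GP {R : Type} [CommRing R] [Algebra ℂ R] (P : MvPolynomial (Option (Fin n)) ℂ) (x l : R)
    (i : Fin n) : MvPolynomial (Fin n) R := sb x (pderiv (some i) P) - C l * X i

/-- the last equation `P_b(x, x') + p = l x` -/
def EP {R : Type} [CommRing R] [Algebra ℂ R] (P : MvPolynomial (Option (Fin n)) ℂ) (x l p : R) :
    MvPolynomial (Fin n) R := sb x (pderiv none P) + C p - C (l * x)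

/-- `P` is a form of degree `q + 1`, nonsingular on `b = 0` -/
structure NS (P : MvPolynomial (Option (Fin n)) ℂ) (q : ℕ) : Prop where
  two : 2 ≤ q
  hom : P.IsHomogeneous (q + 1)
  ns : ∀ x : Fin n → ℂ, (∀ i, eval x (sb (0 : ℂ) (pderiv (some i) P)) = 0) → x = 0

variable {P : MvPolynomial (Option (Fin n)) ℂ} {q : ℕ}

lemma NS.der (h : NS P q) (o : Option (Fin n)) : (pderiv o P).IsHomogeneous q := by
  have := h.hom.pderiv (i := o)
  simpa using this

lemma NS.ci (h : NS P q) : CI (fun i => sb (0 : ℂ) (pderiv (some i) P)) (fun _ => q) where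
  pos := fun _ => by have := h.two; omega
  hom := fun i => sb_hom (h.der (some i))
  zero := h.ns

lemma NS.top (h : NS P q) {R : Type} [CommRing R] [Algebra ℂ R] (x l : R) :
    Top (fun i => sb (0 : ℂ) (pderiv (some i) P)) (fun _ => q) (GP P x l) := by
  intro i
  have h2 := h.two
  have e : GP P x l i - map (algebraMap ℂ R) (sb (0 : ℂ) (pderiv (some i) P)) =
      (sb x (pderiv (some i) P) - map (algebraMap ℂ R) (sb (0 : ℂ) (pderiv (some i) P))) -
        C l * X i := by
    rw [GP]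
    ring
  show (GP P x l i - map (algebraMap ℂ R) (sb (0 : ℂ) (pderiv (some i) P))).totalDegree < q
  rw [e]
  have h3 := totalDegree_sub (sb x (pderiv (some i) P) -
    map (algebraMap ℂ R) (sb (0 : ℂ) (pderiv (some i) P))) (C l * X i)
  have h4 := sb_sub_lt x (by omega) (h.der (some i))
  have h5 : (C l * X i : MvPolynomial (Fin n) R).totalDegree ≤ 1 := by
    refine (totalDegree_mul _ _).trans ?_
    rw [totalDegree_C, zero_add]
    rw [X]
    refine (totalDegree_monomial_le _ _).trans ?_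
    rw [Finsupp.sum_single_index rfl]
    rfl
  omega

/-- the universal coefficient ring -/
abbrev U3 : Type := MvPolynomial (Fin 3) ℂ

/-- **the norm polynomial** -/
def NPol (P : MvPolynomial (Option (Fin n)) ℂ) : U3 :=
  Nm U3 (GP P (X 0) (X 1)) (EP P (X 0) (X 1) (X 2))

lemma GP_map {R R' : Type} [CommRing R] [Algebra ℂ R] [CommRing R'] [Algebra ℂ R']
    (φ : R →ₐ[ℂ] R') (x l : R) (i : Fin n) :
    map (φ : R →+* R') (GP P x l i) = GP P (φ x) (φ l) i := by
  rw [GP, GP, map_sub, sb_map, map_mul, map_C, map_X]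
  rfl

lemma EP_map {R R' : Type} [CommRing R] [Algebra ℂ R] [CommRing R'] [Algebra ℂ R']
    (φ : R →ₐ[ℂ] R') (x l p : R) :
    map (φ : R →+* R') (EP P x l p) = EP P (φ x) (φ l) (φ p) := by
  rw [EP, EP, map_sub, map_add, sb_map, map_C, map_C]
  simp

/-- the norm polynomial computes all norms -/
theorem NPol_eval (h : NS P q) {R : Type} [CommRing R] [Algebra ℂ R] (x l p : R) :
    Nm R (GP P x l) (EP P x l p) = aeval ![x, l, p] (NPol P) := by
  have h1 := Nm_map h.ci (h.top (X 0 : U3) (X 1)) (aeval ![x, l, p] : U3 →ₐ[ℂ] R)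
    (EP P (X 0) (X 1) (X 2))
  rw [NPol, ← h1]
  congr 1
  · funext i
    rw [GP_map, aeval_X, aeval_X]
    rfl
  · rw [EP_map, aeval_X, aeval_X, aeval_X]
    rfl

lemma eval_sb (x : ℂ) (y : Fin n → ℂ) (F : MvPolynomial (Option (Fin n)) ℂ) :
    eval y (sb x F) = eval (fun o : Option (Fin n) => o.elim x y) F := by
  have h : (aeval y : MvPolynomial (Fin n) ℂ →ₐ[ℂ] ℂ).comp (sb x) =
      aeval (fun o : Option (Fin n) => o.elim x y) := by
    apply algHom_ext
    intro o
    cases o with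
    | none =>
      rw [AlgHom.comp_apply, sb_none]
      simp
    | some i =>
      rw [AlgHom.comp_apply, sb_some]
      simp
  have h1 := DFunLike.congr_fun h F
  rw [AlgHom.comp_apply] at h1
  exact h1

/-- dilation of the variables -/
def dil (t : ℂ) : MvPolynomial (Fin n) ℂ →ₐ[ℂ] MvPolynomial (Fin n) ℂ := aeval fun i => C t * X i

lemma dil_X (t : ℂ) (i : Fin n) : dil t (X i : MvPolynomial (Fin n) ℂ) = C t * X i := aeval_X _ _

lemma dil_dil {t s : ℂ} (h : t * s = 1) (F : MvPolynomial (Fin n) ℂ) : dil t (dil s F) = F := by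
  have h1 : (dil t).comp (dil s) = AlgHom.id ℂ (MvPolynomial (Fin n) ℂ) := by
    apply algHom_ext
    intro i
    rw [AlgHom.comp_apply, dil_X, map_mul, dil_X, ← mul_assoc]
    have h2 : dil t (C s : MvPolynomial (Fin n) ℂ) = C s := (dil t).commutes s
    rw [h2, ← map_mul, mul_comm s t, h, map_one, one_mul]
    rfl
  exact DFunLike.congr_fun h1 F

/-- dilation as an automorphism -/
def dilE (t : ℂ) (ht : t ≠ 0) : MvPolynomial (Fin n) ℂ ≃ₐ[ℂ] MvPolynomial (Fin n) ℂ :=
  AlgEquiv.ofAlgHom (dil t) (dil t⁻¹)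
    (by
      apply AlgHom.ext
      intro F
      exact dil_dil (mul_inv_cancel₀ ht) F)
    (by
      apply AlgHom.ext
      intro F
      exact dil_dil (inv_mul_cancel₀ ht) F)

lemma dilE_apply (t : ℂ) (ht : t ≠ 0) (F : MvPolynomial (Fin n) ℂ) : dilE t ht F = dil t F := rfl

lemma eval_dil (t : ℂ) (y : Fin n → ℂ) (F : MvPolynomial (Fin n) ℂ) :
    eval y (dil t F) = eval (t • y) F := by
  have h : (aeval y : MvPolynomial (Fin n) ℂ →ₐ[ℂ] ℂ).comp (dil t) = aeval (t • y) := by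
    apply algHom_ext
    intro i
    rw [AlgHom.comp_apply, dil_X]
    simp
  have h1 := DFunLike.congr_fun h F
  rw [AlgHom.comp_apply] at h1
  exact h1

lemma BZeval {σ : Type} [Finite σ] {F : MvPolynomial σ ℂ} {d : ℕ} (hF : F.IsHomogeneous d) (t : ℂ)
    (x : σ → ℂ) : eval (t • x) F = t ^ d * eval x F := by
  have := Fintype.ofFinite σ
  rw [eval_eq', eval_eq', Finset.mul_sum]
  apply Finset.sum_congr rfl
  intro m hm
  have h1 : m.degree = d := by
    have := hF (mem_support_iff.mp hm)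
    rwa [Finsupp.degree_eq_weight_one]
  have h2 : ∏ i, (t • x) i ^ m i = t ^ d * ∏ i, x i ^ m i := by
    rw [← h1, Finsupp.degree_eq_sum, ← Finset.prod_pow_eq_pow_sum, ← Finset.prod_mul_distrib]
    apply Finset.prod_congr rfl
    intro i _
    rw [Pi.smul_apply, smul_eq_mul, mul_pow]
  rw [h2]
  ring

lemma dil_sb (t x : ℂ) {F : MvPolynomial (Option (Fin n)) ℂ} {m : ℕ} (hF : F.IsHomogeneous m) :
    dil t (sb (t * x) F) = C (t ^ m) * sb x F := by
  apply MvPolynomial.funext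
  intro y
  rw [eval_dil, eval_sb, map_mul, eval_C, eval_sb, ← BZeval hF t]
  congr 2
  funext o
  cases o with
  | none => rfl
  | some i => rfl

lemma dil_GP (h : NS P q) (t x l : ℂ) (i : Fin n) :
    dil t (GP P (t * x) (t ^ (q - 1) * l) i) = C (t ^ q) * GP P x l i := by
  have h2 := h.two
  have h3 : dil t (C (t ^ (q - 1) * l) : MvPolynomial (Fin n) ℂ) = C (t ^ (q - 1) * l) :=
    (dil t).commutes _
  rw [GP, GP, map_sub, dil_sb t x (h.der (some i)), map_mul, dil_X, h3, mul_sub, ← mul_assoc,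
    ← map_mul, ← mul_assoc, ← map_mul]
  congr 3
  obtain ⟨q', rfl⟩ : ∃ q', q = q' + 1 := ⟨q - 1, by omega⟩
  rw [Nat.add_sub_cancel, pow_succ]
  ring

lemma dil_EP (h : NS P q) (t x l p : ℂ) :
    dil t (EP P (t * x) (t ^ (q - 1) * l) (t ^ q * p)) = C (t ^ q) * EP P x l p := by
  have h2 := h.two
  have h3 : ∀ c : ℂ, dil t (C c : MvPolynomial (Fin n) ℂ) = C c := fun c => (dil t).commutes _
  rw [EP, EP, map_sub, map_add, dil_sb t x (h.der none), h3, h3, mul_sub, mul_add, ← map_mul,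
    ← map_mul]
  congr 2
  obtain ⟨q', rfl⟩ : ∃ q', q = q' + 1 := ⟨q - 1, by omega⟩
  rw [Nat.add_sub_cancel, pow_succ]
  ring

/-- the quotient is free of rank `q ^ n` -/
lemma exists_bas (h : NS P q) (R : Type) [CommRing R] [Algebra ℂ R] (x l : R) :
    ∃ (ι : Type) (_ : Fintype ι) (_ : Module.Basis ι R (Md R (GP P x l))),
      Fintype.card ι = q ^ n := by
  obtain ⟨ι, _, e, de, he, hcard, hb⟩ := BZ.exists_basis _ _ h.ci.pos h.ci.hom h.ci.zero
  obtain ⟨b, hb1⟩ := hb R (GP P x l) (h.top x l)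
  exact ⟨ι, _, b, by rw [hcard]; simp⟩

/-- the rank -/
lemma finrank_Md (h : NS P q) (x l : ℂ) : Module.finrank ℂ (Md ℂ (GP P x l)) = q ^ n := by
  obtain ⟨ι, _, e, de, he, hcard, hb⟩ := BZ.exists_basis _ _ h.ci.pos h.ci.hom h.ci.zero
  obtain ⟨b, hb1⟩ := hb ℂ (GP P x l) (h.top x l)
  rw [Module.finrank_eq_card_basis b, hcard]
  simp

/-- scaling -/
theorem Nm_scale (h : NS P q) {t : ℂ} (ht : t ≠ 0) (x l p : ℂ) :
    Nm ℂ (GP P (t * x) (t ^ (q - 1) * l)) (EP P (t * x) (t ^ (q - 1) * l) (t ^ q * p)) =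
      t ^ (q * q ^ n) * Nm ℂ (GP P x l) (EP P x l p) := by
  have hspan : Ideal.span (Set.range (GP P x l)) =
      (Ideal.span (Set.range (GP P (t * x) (t ^ (q - 1) * l)))).map
        ((dilE t ht : MvPolynomial (Fin n) ℂ ≃ₐ[ℂ] MvPolynomial (Fin n) ℂ) :
          MvPolynomial (Fin n) ℂ →+* MvPolynomial (Fin n) ℂ) := by
    rw [Ideal.map_span]
    have htq : IsUnit (C (t ^ q) : MvPolynomial (Fin n) ℂ) :=
      (isUnit_iff_ne_zero.mpr (pow_ne_zero q ht)).map C
    apply le_antisymm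
    · rw [Ideal.span_le]
      rintro _ ⟨i, rfl⟩
      have h1 : C (t ^ q) * GP P x l i ∈ Ideal.span
          (((dilE t ht : MvPolynomial (Fin n) ℂ ≃ₐ[ℂ] MvPolynomial (Fin n) ℂ) :
            MvPolynomial (Fin n) ℂ →+* MvPolynomial (Fin n) ℂ) ''
            Set.range (GP P (t * x) (t ^ (q - 1) * l))) := by
        rw [← dil_GP h]
        exact Ideal.subset_span ⟨_, ⟨i, rfl⟩, rfl⟩
      exact (Ideal.unit_mul_mem_iff_mem _ htq).mp h1
    · rw [Ideal.span_le]
      rintro _ ⟨_, ⟨i, rfl⟩, rfl⟩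
      show dil t _ ∈ Ideal.span (Set.range (GP P x l))
      rw [dil_GP h]
      exact Ideal.mul_mem_left _ _ (Ideal.subset_span ⟨i, rfl⟩)
  let e := Ideal.quotientEquivAlg (Ideal.span (Set.range (GP P (t * x) (t ^ (q - 1) * l))))
    (Ideal.span (Set.range (GP P x l))) (dilE t ht) hspan
  have h1 := Algebra.norm_eq_of_algEquiv e (Ideal.Quotient.mk _
    (EP P (t * x) (t ^ (q - 1) * l) (t ^ q * p)))
  rw [Nm, Nm, ← h1]
  have h2 : e (Ideal.Quotient.mk _ (EP P (t * x) (t ^ (q - 1) * l) (t ^ q * p))) =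
      algebraMap ℂ _ (t ^ q) * Ideal.Quotient.mk _ (EP P x l p) := by
    show Ideal.Quotient.mk _ (dil t (EP P (t * x) (t ^ (q - 1) * l) (t ^ q * p))) = _
    rw [dil_EP h, map_mul]
    rfl
  obtain ⟨ι, _, b, hb⟩ := exists_bas h ℂ x l
  rw [h2, map_mul, Algebra.norm_algebraMap_of_basis b, hb, ← pow_mul]

/-- the weight -/
def wt (q : ℕ) (α : Fin 3 →₀ ℕ) : ℕ := α 0 + (q - 1) * α 1 + q * α 2

lemma eval3 (N : U3) (v : Fin 3 → ℂ) :
    eval v N = ∑ α ∈ N.support, coeff α N * (v 0 ^ α 0 * v 1 ^ α 1 * v 2 ^ α 2) := by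
  rw [eval_eq']
  apply Finset.sum_congr rfl
  intro α _
  rw [Fin.prod_univ_three]

/-- the norm polynomial is weighted homogeneous -/
theorem NPol_weight (h : NS P q) {α : Fin 3 →₀ ℕ} (hα : coeff α (NPol P) ≠ 0) :
    wt q α = q ^ (n + 1) := by
  classical
  obtain ⟨N, hN⟩ : ∃ N, N = NPol P := ⟨_, rfl⟩
  rw [← hN] at hα
  -- the dilated polynomial
  obtain ⟨N2, hN2⟩ : ∃ N2 : U3, N2 = ∑ α ∈ N.support, monomial α (coeff α N * 2 ^ wt q α) :=
    ⟨_, rfl⟩
  have h1 : N2 = C (2 ^ (q * q ^ n)) * N := by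
    apply MvPolynomial.funext
    intro v
    have h2 := Nm_scale h (t := 2) (by norm_num) (v 0) (v 1) (v 2)
    rw [NPol_eval h, NPol_eval h, ← hN] at h2
    have h3 : ∀ w : Fin 3 → ℂ, aeval w N = eval w N := fun w => rfl
    rw [h3, h3, eval3, eval3] at h2
    have h4 : eval v N2 = ∑ α ∈ N.support, coeff α N * 2 ^ wt q α *
        (v 0 ^ α 0 * v 1 ^ α 1 * v 2 ^ α 2) := by
      rw [hN2, map_sum]
      apply Finset.sum_congr rfl
      intro α _
      rw [eval_monomial, Finsupp.prod_fintype _ _ (fun i => pow_zero _), Fin.prod_univ_three]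
    rw [h4, map_mul, eval_C, eval3]
    refine Eq.trans ?_ h2
    apply Finset.sum_congr rfl
    intro α _
    simp only [Matrix.cons_val_zero, Matrix.cons_val_one, Matrix.cons_val, wt]
    rw [mul_pow, mul_pow, mul_pow, ← pow_mul, ← pow_mul, pow_add, pow_add]
    ring
  have h5 : coeff α N2 = coeff α N * 2 ^ wt q α := by
    rw [hN2, coeff_sum]
    simp only [coeff_monomial]
    rw [Finset.sum_ite_eq', if_pos (mem_support_iff.mpr hα)]
  rw [h1, coeff_C_mul, mul_comm] at h5
  have h6 := mul_left_cancel₀ hα h5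
  have h7 : ((2 ^ (q * q ^ n) : ℕ) : ℂ) = ((2 ^ wt q α : ℕ) : ℂ) := by
    push_cast
    exact h6
  have h8 := Nat.cast_injective h7
  have h9 := Nat.pow_right_injective (le_refl 2) h8
  rw [← h9, pow_succ]
  ring

lemma norm_one_add {A : Type} [CommRing A] [Algebra ℂ A] [Module.Finite ℂ A] {a : A}
    (ha : IsNilpotent a) : Algebra.norm ℂ (1 + a) = 1 := by
  have hn : IsNilpotent (-(Algebra.lmul ℂ A a)) := by
    rw [isNilpotent_neg_iff]
    exact ha.map (Algebra.lmul ℂ A)
  have h1 := LinearMap.eval_charpoly (-(Algebra.lmul ℂ A a)) 1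
  rw [hn.charpoly_eq_X_pow_finrank] at h1
  rw [Polynomial.eval_pow, Polynomial.eval_X, one_pow] at h1
  rw [Algebra.norm_apply, h1]
  congr 1
  rw [map_add, map_one, map_one, sub_neg_eq_add]

lemma sb_nilpotent (h : NS P q) : IsNilpotent
    (Ideal.Quotient.mk (Ideal.span (Set.range (GP P (0 : ℂ) 0))) (sb (0 : ℂ) (pderiv none P))) := by
  obtain ⟨N, hN⟩ := BZ.forms_mem (I := Ideal.span (Set.range (GP P (0 : ℂ) 0))) (by
    intro x hx
    apply h.ns
    intro i
    have := hx (GP P (0 : ℂ) 0 i) (Ideal.subset_span ⟨i, rfl⟩)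
    rw [GP, map_zero, zero_mul, sub_zero] at this
    exact this)
  refine ⟨N, ?_⟩
  rw [← map_pow, Ideal.Quotient.eq_zero_iff_mem]
  apply hN (q * N)
  · have := h.two
    nlinarith
  · exact (sb_hom (h.der none)).pow N

/-- the coefficient of `Π ^ (q ^ n)` is one -/
theorem NPol_monic (h : NS P q) : coeff (Finsupp.single 2 (q ^ n)) (NPol P) = 1 := by
  classical
  have h1 := NPol_eval h (0 : ℂ) 0 1
  have h2 : Nm ℂ (GP P (0 : ℂ) 0) (EP P 0 0 1) = 1 := by
    have h3 : Ideal.Quotient.mk (Ideal.span (Set.range (GP P (0 : ℂ) 0))) (EP P (0 : ℂ) 0 1) =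
        1 + Ideal.Quotient.mk (Ideal.span (Set.range (GP P (0 : ℂ) 0)))
          (sb (0 : ℂ) (pderiv none P)) := by
      rw [EP, mul_zero, map_zero, sub_zero, map_one, map_add, map_one, add_comm]
    obtain ⟨ι, _, b, hb⟩ := exists_bas h ℂ (0 : ℂ) 0
    have : Module.Finite ℂ (Md ℂ (GP P (0 : ℂ) 0)) := Module.Finite.of_basis b
    rw [Nm, h3, norm_one_add (sb_nilpotent h)]
  rw [h2] at h1
  have h3 : (aeval ![(0 : ℂ), 0, 1] (NPol P) : ℂ) = eval ![0, 0, 1] (NPol P) := rfl
  rw [h3, eval3, Finset.sum_eq_single (Finsupp.single 2 (q ^ n))] at h1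
  · rw [h1]
    simp
  · intro α hα hne
    have h4 := NPol_weight h (mem_support_iff.mp hα)
    have h5 : α 0 ≠ 0 ∨ α 1 ≠ 0 := by
      by_contra hcon
      push Not at hcon
      apply hne
      have h6 : α 2 = q ^ n := by
        rw [wt, hcon.1, hcon.2, mul_zero, zero_add, zero_add, pow_succ, mul_comm] at h4
        have := h.two
        exact Nat.eq_of_mul_eq_mul_right (by omega) h4
      ext i
      fin_cases i
      · simpa using hcon.1
      · simpa using hcon.2
      · simpa using h6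
    simp only [Matrix.cons_val_zero, Matrix.cons_val_one, Matrix.cons_val]
    rcases h5 with h5 | h5
    · rw [zero_pow h5]
      ring
    · rw [zero_pow h5]
      ring
  · intro h4
    rw [notMem_support_iff.mp h4, zero_mul]

end

end Pool.Agent.helper62.NP
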